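import Pool.Agent.MVO.StmtsN

/-! Row ECK of squad MVO: one letter identities of degree 3 in `GE k cls h0`. -/

set_option autoImplicit false

namespace Pool.Agent.MVO.H55

open Pool.Agent.Helper14_MV Pool.Agent.Helper2_MV

/-- the letter is not 0 -/
def nz (c : ℕ) : Bool := decide (c ≠ 0)

theorem filter_nz_replicate (n : ℕ) : (List.replicate n 0).filter nz = [] := by
  rw [List.filter_eq_nil_iff]
  intro c hc
  rw [List.eq_of_mem_replicate hc]
  simp [nz]

theorem filter_nz_mw (k : ℕ) (a : ℕ → ℕ) : (mw k a).filter nz = seps k := by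
  unfold mw
  induction k with
  | zero =>
    simp only [asm]
    rw [filter_nz_replicate]
    rfl
  | succ k ih =>
    simp only [asm]
    rw [List.filter_append, ih, List.filter_cons_of_pos (by simp [nz]), filter_nz_replicate,
      seps_succ]

theorem NS_zero (k : ℕ) : NS k 0 := fun h => absurd h.1 (by norm_num)

theorem count_zero_mw (k : ℕ) (a : ℕ → ℕ) : (mw k a).count 0 = deg k a := by
  unfold mw
  rw [count_asm (NS_zero k)]
  unfold deg
  exact Finset.sum_congr rfl fun j _ => List.count_replicate_self ..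

theorem count_seps_le (k t : ℕ) : (seps k).count t ≤ 1 :=
  List.nodup_iff_count_le_one.1 (nodup_seps k) t

theorem count_ne_mw (k : ℕ) (a : ℕ → ℕ) {t : ℕ} (ht : t ≠ 0) : (mw k a).count t ≤ 1 := by
  have h1 : ((mw k a).filter nz).count t = (mw k a).count t :=
    List.count_filter (by simp [nz, ht])
  rw [← h1, filter_nz_mw]
  exact count_seps_le k t

theorem mem_mw {k : ℕ} {a : ℕ → ℕ} {t : ℕ} (h : t ∈ mw k a) : t = 0 ∨ (2 ≤ t ∧ t ≤ k + 1) := by
  unfold mw at h
  rw [mem_asm] at h
  rcases h with h | ⟨j, _, h⟩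
  · exact Or.inr h
  · exact Or.inl (List.eq_of_mem_replicate h)

/-- a word whose letters different from 0 are the simple letters in their order -/
theorem exists_mw {k : ℕ} {w : List ℕ} (hw : w.filter nz = seps k) : ∃ a, w = mw k a := by
  have h1 : w.filter (fun c => decide (2 ≤ c ∧ c ≤ k + 1)) = seps k := by
    have h2 : (w.filter nz).filter (fun c => decide (2 ≤ c ∧ c ≤ k + 1)) =
        w.filter (fun c => decide (2 ≤ c ∧ c ≤ k + 1)) := by
      rw [List.filter_filter]
      apply List.filter_congr
      intro c _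
      by_cases h : 2 ≤ c ∧ c ≤ k + 1
      · have h0 : c ≠ 0 := by omega
        simp [nz, h, h0]
      · simp [h]
    rw [← h2, hw, List.filter_eq_self]
    intro c hc
    rw [decide_eq_true_iff]
    exact mem_seps.1 hc
  obtain ⟨B, hB, hwB⟩ := dec h1
  refine ⟨fun j => (B j).length, ?_⟩
  rw [hwB]
  unfold mw
  apply asm_congr
  intro j hj
  apply List.eq_replicate_of_mem
  intro c hc
  by_contra hc0
  have h2 : c ∈ w := by
    rw [hwB, mem_asm]
    exact Or.inr ⟨j, hj, hc⟩
  have h3 : c ∈ w.filter nz := List.mem_filter.2 ⟨h2, by simp [nz, hc0]⟩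
  rw [hw, mem_seps] at h3
  exact hB j c hc h3

theorem count_replicate_flatMap (n t : ℕ) (g : ℕ → List ℕ) :
    ((List.replicate n 0).flatMap g).count t = n * (g 0).count t := by
  induction n with
  | zero => simp
  | succ n ih => rw [List.replicate_succ, List.flatMap_cons, List.count_append, ih]; ring

theorem count_flat (k1 : ℕ) (c : ℕ → ℕ) (g : ℕ → List ℕ) (t : ℕ) :
    ((mw k1 c).flatMap g).count t = deg k1 c * (g 0).count t + ((seps k1).flatMap g).count t := by
  unfold mw
  induction k1 with
  | zero =>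
    simp only [asm]
    rw [count_replicate_flatMap]
    simp [deg, seps]
  | succ k1 ih =>
    simp only [asm]
    have hd : deg (k1 + 1) c = deg k1 c + c (k1 + 1) := by
      unfold deg
      rw [Finset.sum_range_succ _ (k1 + 1)]
    rw [List.flatMap_append, List.count_append, ih, List.flatMap_cons, List.count_append,
      count_replicate_flatMap, seps_succ, List.flatMap_append, List.count_append, hd]
    simp only [List.flatMap_cons, List.flatMap_nil, List.append_nil]
    ring

/-- the part without 0's does not depend on the type -/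
theorem filter_flat (k1 : ℕ) (c : ℕ → ℕ) (g : ℕ → List ℕ) (p : ℕ → Bool)
    (h0 : (g 0).filter p = []) :
    ((mw k1 c).flatMap g).filter p = (seps k1).flatMap (fun t => (g t).filter p) := by
  rw [List.filter_flatMap]
  unfold mw
  have hrep : ∀ n, (List.replicate n 0).flatMap (fun t => (g t).filter p) = [] := by
    intro n
    induction n with
    | zero => rfl
    | succ n ih => rw [List.replicate_succ, List.flatMap_cons, ih, h0]; rfl
  induction k1 with
  | zero =>
    simp only [asm]
    exact hrep _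
  | succ k1 ih =>
    simp only [asm]
    rw [List.flatMap_append, ih, List.flatMap_cons, hrep, seps_succ, List.flatMap_append]
    simp

theorem flat_nil (k1 : ℕ) (c : ℕ → ℕ) (g : ℕ → List ℕ) (h0 : g 0 = []) :
    (mw k1 c).flatMap g = (seps k1).flatMap g := by
  have h := filter_flat k1 c g (fun _ => true) (by rw [h0]; rfl)
  simpa using h

/-- splitting of the simple letters -/
theorem split (g : ℕ → List ℕ) (M : List ℕ) (k1 k : ℕ) (Q : List ℕ)
    (h : M ++ (seps k1).flatMap g ++ Q = seps k) :
    ∃ f : ℕ → ℕ, BMap k1 k f ∧ M = List.range' 2 (f 0) ∧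
      (∀ t, 2 ≤ t → t ≤ k1 + 1 → g t = List.range' (f (t - 2) + 2) (f (t - 1) - f (t - 2))) ∧
      Q = List.range' (f k1 + 2) (k - f k1) := by
  induction k1 generalizing Q with
  | zero =>
    simp only [seps, List.range'_zero, List.flatMap_nil, List.append_nil] at h
    obtain ⟨n, hn, h1, h2⟩ := List.range'_eq_append_iff.1 h.symm
    refine ⟨fun _ => n, ⟨fun _ _ _ _ => le_refl n, fun _ _ => hn⟩, h1, fun t h3 h4 => by omega,
      ?_⟩
    show Q = List.range' (n + 2) (k - n)
    rw [h2]
    congr 1
    omega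
  | succ k1 ih =>
    rw [seps_succ, List.flatMap_append] at h
    simp only [List.flatMap_cons, List.flatMap_nil, List.append_nil] at h
    obtain ⟨f, hf, hM, hg, hQ⟩ := ih (g (k1 + 2) ++ Q) (by
      rw [← h]
      simp [List.append_assoc])
    obtain ⟨n, hn, h1, h2⟩ := List.range'_eq_append_iff.1 hQ.symm
    have hfk := hf.le k1 (le_refl k1)
    refine ⟨fun j => if j ≤ k1 then f j else f k1 + n, ⟨?_, ?_⟩, ?_, ?_, ?_⟩
    · intro i j hij hj
      show (if i ≤ k1 then f i else f k1 + n) ≤ (if j ≤ k1 then f j else f k1 + n)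
      by_cases hj1 : j ≤ k1
      · rw [if_pos hj1, if_pos (by omega)]
        exact hf.mono i j hij hj1
      · rw [if_neg hj1]
        by_cases hi1 : i ≤ k1
        · rw [if_pos hi1]
          have := hf.mono i k1 hi1 (le_refl k1)
          omega
        · rw [if_neg hi1]
    · intro i hi
      show (if i ≤ k1 then f i else f k1 + n) ≤ k
      by_cases hi1 : i ≤ k1
      · rw [if_pos hi1]
        exact hf.le i hi1
      · rw [if_neg hi1]
        omega
    · show M = List.range' 2 (if 0 ≤ k1 then f 0 else f k1 + n)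
      rw [if_pos (Nat.zero_le _)]
      exact hM
    · intro t h3 h4
      show g t = List.range' ((if t - 2 ≤ k1 then f (t - 2) else f k1 + n) + 2)
        ((if t - 1 ≤ k1 then f (t - 1) else f k1 + n) -
          (if t - 2 ≤ k1 then f (t - 2) else f k1 + n))
      rw [if_pos (by omega : t - 2 ≤ k1)]
      by_cases ht : t ≤ k1 + 1
      · rw [if_pos (by omega : t - 1 ≤ k1)]
        exact hg t h3 ht
      · have ht2 : t = k1 + 2 := by omega
        subst ht2
        rw [if_neg (by omega : ¬ k1 + 2 - 1 ≤ k1), h1]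
        have e1 : k1 + 2 - 2 = k1 := by omega
        rw [e1]
        congr 1
        omega
    · show Q = List.range' ((if k1 + 1 ≤ k1 then f (k1 + 1) else f k1 + n) + 2)
        (k - (if k1 + 1 ≤ k1 then f (k1 + 1) else f k1 + n))
      rw [if_neg (by omega : ¬ k1 + 1 ≤ k1), h2]
      congr 1
      · omega
      · omega

theorem deg_psh {k : ℕ} {k1 : ℕ} {f : ℕ → ℕ} (hf : BMap k1 k f) (c : ℕ → ℕ)
    (M Q : List ℕ) (g : ℕ → List ℕ) (hM : M = List.range' 2 (f 0))
    (hg : ∀ t, 2 ≤ t → t ≤ k1 + 1 → g t = List.range' (f (t - 2) + 2) (f (t - 1) - f (t - 2)))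
    (hQ : Q = List.range' (f k1 + 2) (k - f k1)) (h0 : g 0 = [0]) :
    M ++ (mw k1 c).flatMap g ++ Q = mw k (psh k1 f c) := by
  have h1 : (mw k1 c).flatMap g = (mw k1 c).flatMap (pSub k1 f) := by
    apply flatMap_congr'
    intro t ht
    rcases mem_mw ht with h2 | ⟨h2, h3⟩
    · subst h2
      rw [h0, pSub_ns (NS_zero k1)]
    · rw [hg t h2 h3]
      unfold pSub
      rw [if_pos ⟨h2, h3⟩]
  rw [h1, hM, hQ]
  unfold mw
  rw [push_word hf (blkOk_mw k1 c)]
  exact asm_congr fun j _ => pshB_replicate k1 f c j 0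

theorem key (k : ℕ) (cls : (ℕ → ℕ) → ℕ) (h0 : ℕ) (hext : CExt k cls) (k1 : ℕ) (c c' : ℕ → ℕ)
    (hc : deg k1 c = 3) (hc' : deg k1 c' = 3)
    (hf : ∀ f, BMap k1 k f → cls (psh k1 f c) = cls (psh k1 f c')) (cc : ℕ)
    (M Q : List ℕ) (g : ℕ → List ℕ)
    (h : ∃ a, M ++ (mw k1 c).flatMap g ++ Q = mw k a ∧
      ((deg k a = 3 ∧ cls a = cc) ∨ (4 ≤ deg k a ∧ cc = h0))) :
    ∃ a, M ++ (mw k1 c').flatMap g ++ Q = mw k a ∧
      ((deg k a = 3 ∧ cls a = cc) ∨ (4 ≤ deg k a ∧ cc = h0)) := by
  obtain ⟨a, ha, hcase⟩ := h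
  -- counts
  have hcnt : ∀ (d : ℕ → ℕ), deg k1 d = 3 → ∀ t, (M ++ (mw k1 d).flatMap g ++ Q).count t =
      M.count t + (3 * (g 0).count t + ((seps k1).flatMap g).count t) + Q.count t := by
    intro d hd t
    rw [List.count_append, List.count_append, count_flat, hd]
  -- the image of 0 is a power of 0
  have hz : g 0 = List.replicate (g 0).length 0 := by
    apply List.eq_replicate_of_mem
    intro t ht
    by_contra ht0
    have h1 := count_ne_mw k a ht0
    rw [← ha, hcnt c hc t] at h1
    have h2 : 0 < (g 0).count t := List.count_pos_iff.2 ht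
    omega
  by_cases hs0 : (g 0).length = 0
  · -- the image of 0 is empty
    have h1 : g 0 = [] := List.length_eq_zero_iff.1 hs0
    rw [flat_nil k1 c g h1] at ha
    rw [flat_nil k1 c' g h1]
    exact ⟨a, ha, hcase⟩
  · have hg0nz : (g 0).filter nz = [] := by
      rw [hz]
      exact filter_nz_replicate _
    have hfil : ∀ d : ℕ → ℕ, (M ++ (mw k1 d).flatMap g ++ Q).filter nz =
        M.filter nz ++ (seps k1).flatMap (fun t => (g t).filter nz) ++ Q.filter nz := by
      intro d
      rw [List.filter_append, List.filter_append, filter_flat k1 d g nz hg0nz]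
    have hsep : M.filter nz ++ (seps k1).flatMap (fun t => (g t).filter nz) ++ Q.filter nz =
        seps k := by
      rw [← hfil c, ha, filter_nz_mw]
    obtain ⟨a', ha'⟩ := exists_mw (k := k) (w := M ++ (mw k1 c').flatMap g ++ Q) (by
      rw [hfil c', hsep])
    have hd : deg k a' = deg k a := by
      rw [← count_zero_mw, ← count_zero_mw, ← ha, ← ha', hcnt c hc, hcnt c' hc']
    rcases hcase with ⟨h3, hcl⟩ | ⟨h4, hcl⟩
    · -- degree 3
      have h5 : M.count 0 + (3 * (g 0).count 0 + ((seps k1).flatMap g).count 0) + Q.count 0 =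
          3 := by
        rw [← hcnt c hc 0, ha, count_zero_mw, h3]
      have h6 : (g 0).count 0 = (g 0).length := by
        rw [hz]
        simp
      have h7 : (g 0).length = 1 := by omega
      have hg0 : g 0 = [0] := by
        rw [hz, h7]
        rfl
      have hM0 : M.count 0 = 0 := by omega
      have hQ0 : Q.count 0 = 0 := by omega
      have hS0 : ((seps k1).flatMap g).count 0 = 0 := by omega
      have hself : ∀ l : List ℕ, l.count 0 = 0 → l.filter nz = l := by
        intro l hl
        rw [List.filter_eq_self]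
        intro t ht
        have h8 : t ≠ 0 := by
          intro h9
          rw [h9] at ht
          exact absurd (List.count_pos_iff.2 ht) (by omega)
        simp [nz, h8]
      have hsep' : M ++ (seps k1).flatMap g ++ Q = seps k := by
        rw [← hsep, hself M hM0, hself Q hQ0]
        congr 2
        rw [← List.filter_flatMap, hself _ hS0]
      obtain ⟨f, hfB, hM, hg, hQ⟩ := split g M k1 k Q hsep'
      have e1 := deg_psh hfB c M Q g hM hg hQ hg0
      have e2 := deg_psh hfB c' M Q g hM hg hQ hg0
      refine ⟨psh k1 f c', e2, Or.inl ⟨?_, ?_⟩⟩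
      · rw [← count_zero_mw, ← e2, hcnt c' hc', h5]
      · rw [← hf f hfB, ← hcl]
        apply hext
        intro j hj
        have e3 : mw k (psh k1 f c) = mw k a := by rw [← e1, ha]
        have e4 := uniq (blkOk_mw k (psh k1 f c)) (blkOk_mw k a) e3 j hj
        have e5 := congrArg List.length e4
        simpa using e5
    · exact ⟨a', ha', Or.inr ⟨by omega, hcl⟩⟩

theorem eck : EckStmt := by
  intro k cls h0 hext k1 c c' hc hc' hf cc φ m q
  have e : ∀ l : List ℕ, (m * φ (FreeMonoid.ofList l) * q).toList =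
      m.toList ++ l.flatMap (fun i => (φ (FreeMonoid.of i)).toList) ++ q.toList := by
    intro l
    rw [FreeMonoid.toList_mul, FreeMonoid.toList_mul, toList_hom, FreeMonoid.toList_ofList]
  unfold PC
  rw [e, e]
  exact ⟨key k cls h0 hext k1 c c' hc hc' hf cc _ _ _,
    key k cls h0 hext k1 c' c hc' hc (fun f h => (hf f h).symm) cc _ _ _⟩

end Pool.Agent.MVO.H55
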