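import Pool.Agent.MVO.StmtsN

/-! Row NOO of squad MVO: one of the identities `O1 .. O4` is necessary. -/

set_option autoImplicit false

namespace Pool.Agent.MVO.H55

open Pool.Agent.Helper14_MV Pool.Agent.Helper2_MV

theorem noo (npa : NpaStmt) (npb : NpbStmt) (npc : NpcStmt) (npd : NpdStmt) : NooStmt := by
  intro β hth hnc hce hmod
  by_contra hOO
  have hno : NoO β := ⟨fun h => hOO (Or.inl h), fun h => hOO (Or.inr (Or.inl h)),
    fun h => hOO (Or.inr (Or.inr (Or.inl h))), fun h => hOO (Or.inr (Or.inr (Or.inr h)))⟩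
  by_cases h1 : L1 β 1 (v2 3 0) (v2 0 3)
  · exact npb β hth hnc hce hno h1 hmod
  · by_cases h2 : L1 β 1 (v2 3 0) (v2 1 2)
    · exact npc β hth hnc hce hno h2 hmod
    · by_cases h3 : L1 β 1 (v2 2 1) (v2 0 3)
      · exact npd β hth hnc hce hno h3 hmod
      · exact npa β hth hnc hce hno h1 h2 h3 hmod

end Pool.Agent.MVO.H55
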