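import Pool.Agent.MVO.StmtsV
import Pool.Agent.Helper43_MVO.NCommon

/-!
# MVO row NV3 (second clause of class Va over `O1`, second part)
-/

set_option autoImplicit false

namespace Pool.Agent.MVO.H55

open Pool.Agent.MVO Pool.Agent.Helper14_MV Pool.Agent.Helper2_MV
open Pool.Agent.MVO.H43

/-- the type of the second letter -/
def Yv (y : ℕ → ℕ) : Prop := y 0 = 0 ∧ y 1 = 0 ∧ y 2 = 1 ∧ y 3 = 1

/-- the first set of pairs -/
def Tv1 (x y : ℕ → ℕ) : Prop := (x 0 = 1 ∧ x 1 = 1 ∧ x 2 = 1 ∧ x 3 = 0) ∧ Yv y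

/-- the second set of pairs -/
def Tv2 (β : FIC) (x y : ℕ → ℕ) : Prop :=
  Yv y ∧ x 0 + x 1 + x 2 = 3 ∧ x 3 = 0 ∧ 1 ≤ x 2 ∧ (O2 (FC.ofFIC β) ∨ 1 ≤ x 0)

theorem tv1_ext : TExt 3 Tv1 := by
  intro a a' b b' ha hb h
  obtain ⟨⟨h0, h1, h2, h3⟩, g0, g1, g2, g3⟩ := h
  have e0 := ha 0 (by omega); have e1 := ha 1 (by omega); have e2 := ha 2 (by omega)
  have e3 := ha 3 (by omega)
  have f0 := hb 0 (by omega); have f1 := hb 1 (by omega); have f2 := hb 2 (by omega)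
  have f3 := hb 3 (by omega)
  exact ⟨⟨by omega, by omega, by omega, by omega⟩, by omega, by omega, by omega, by omega⟩

theorem tv2_ext (β : FIC) : TExt 3 (Tv2 β) := by
  intro a a' b b' ha hb h
  obtain ⟨⟨g0, g1, g2, g3⟩, h1, h2, h3, h4⟩ := h
  have e0 := ha 0 (by omega); have e1 := ha 1 (by omega); have e2 := ha 2 (by omega)
  have e3 := ha 3 (by omega)
  have f0 := hb 0 (by omega); have f1 := hb 1 (by omega); have f2 := hb 2 (by omega)
  have f3 := hb 3 (by omega)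
  refine ⟨⟨by omega, by omega, by omega, by omega⟩, by omega, by omega, by omega, ?_⟩
  rcases h4 with h4 | h4
  · exact Or.inl h4
  · exact Or.inr (by omega)

theorem yv_deg {y : ℕ → ℕ} (h : Yv y) : deg 3 y = 2 := by
  obtain ⟨g0, g1, g2, g3⟩ := h
  rw [deg3]; omega

theorem tv1_mul : TMul 3 2 Tv1 := by
  intro a b h
  obtain ⟨⟨h0, h1, h2, h3⟩, hy⟩ := h
  have hd := yv_deg hy
  obtain ⟨g0, g1, g2, g3⟩ := hy
  exact ⟨by rw [deg3]; omega, by omega, by omega, by omega⟩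

theorem tv2_mul (β : FIC) : TMul 3 2 (Tv2 β) := by
  intro a b h
  obtain ⟨hy, h1, h2, h3, h4⟩ := h
  have hd := yv_deg hy
  obtain ⟨g0, g1, g2, g3⟩ := hy
  exact ⟨by rw [deg3]; omega, by omega, by omega, by omega⟩

theorem tv1_deg : TDeg 3 Tv1 := by
  intro a b h
  obtain ⟨⟨h0, h1, h2, h3⟩, hy⟩ := h
  exact ⟨by rw [deg3]; omega, yv_deg hy⟩

theorem tv2_deg (β : FIC) : TDeg 3 (Tv2 β) := by
  intro a b h
  obtain ⟨hy, h1, h2, h3, h4⟩ := h
  exact ⟨by rw [deg3]; omega, yv_deg hy⟩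

theorem yv_iso (hISO : IsoStmt) {β : FIC} (hth : β ≤ thC3) (hi : Iso3 β) {y y' : ℕ → ℕ}
    (hy : Yv y) (h : L1 β 3 y y') : Yv y' := by
  have hy' := hy
  obtain ⟨g0, g1, g2, g3⟩ := hy
  have h1 := hISO β hth hi 3 y y' (yv_deg hy') (by
    intro j hj
    interval_cases j <;> omega) h
  have e0 := h1 0 (by omega); have e1 := h1 1 (by omega); have e2 := h1 2 (by omega)
  have e3 := h1 3 (by omega)
  exact ⟨by omega, by omega, by omega, by omega⟩

theorem p0012 (x : ℕ → ℕ) : psh 3 (fl [0, 0, 1, 2]) x = v3 (x 0 + x 1) (x 2) (x 3) := by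
  funext l
  rw [psh3]
  rcases l with _ | _ | _ | l <;> simp [fl, v3]

theorem p01_3 (x : ℕ → ℕ) : psh 1 (fl [0, 1]) x = v3 (x 0) (x 1) 0 := by
  funext l
  rw [psh1]
  rcases l with _ | _ | _ | l <;> simp [fl, v3]

theorem psh_2010 (f : ℕ → ℕ) (l : ℕ) : psh 3 f (v4 2 0 1 0) l
    = (if f 0 = l then 2 else 0) + (if f 2 = l then 1 else 0) := by
  rw [psh3]; simp [v4]

theorem psh_1110 (f : ℕ → ℕ) (l : ℕ) : psh 3 f (v4 1 1 1 0) l
    = (if f 0 = l then 1 else 0) + (if f 1 = l then 1 else 0) + (if f 2 = l then 1 else 0) := by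
  rw [psh3]; simp [v4]

theorem no_psh_v (f : ℕ → ℕ) (h0 : f 0 ≤ 3) (h1 : psh 3 f (v4 2 0 1 0) 0 = 1)
    (h2 : psh 3 f (v4 2 0 1 0) 1 = 1) (h3 : psh 3 f (v4 2 0 1 0) 2 = 1)
    (h4 : psh 3 f (v4 2 0 1 0) 3 = 0) : False := by
  have h5 : 2 ≤ psh 3 f (v4 2 0 1 0) (f 0) := by
    rw [psh_2010, if_pos rfl]
    omega
  have hc : f 0 = 0 ∨ f 0 = 1 ∨ f 0 = 2 ∨ f 0 = 3 := by omega
  rcases hc with hc | hc | hc | hc <;> rw [hc] at h5 <;> omega

theorem key_v (f : ℕ → ℕ) (m12 : f 0 ≤ f 1) (m23 : f 1 ≤ f 2) (m3 : f 2 ≤ 3) :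
    ((psh 3 f (v4 2 0 1 0) 0 + psh 3 f (v4 2 0 1 0) 1 + psh 3 f (v4 2 0 1 0) 2 = 3) ↔
        (psh 3 f (v4 1 1 1 0) 0 + psh 3 f (v4 1 1 1 0) 1 + psh 3 f (v4 1 1 1 0) 2 = 3)) ∧
        ((psh 3 f (v4 2 0 1 0) 3 = 0) ↔ (psh 3 f (v4 1 1 1 0) 3 = 0)) ∧
        ((psh 3 f (v4 2 0 1 0) 3 = 0) → ((1 ≤ psh 3 f (v4 2 0 1 0) 2) ↔
          (1 ≤ psh 3 f (v4 1 1 1 0) 2))) ∧
        ((psh 3 f (v4 2 0 1 0) 3 = 0) → (1 ≤ psh 3 f (v4 2 0 1 0) 2) →
          ((1 ≤ psh 3 f (v4 2 0 1 0) 0) ↔ (1 ≤ psh 3 f (v4 1 1 1 0) 0))) := by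
  simp only [psh_2010, psh_1110]
  generalize f 0 = u1 at *
  generalize f 1 = u2 at *
  generalize f 2 = u3 at *
  interval_cases u3 <;> interval_cases u2 <;> interval_cases u1 <;> decide

theorem nv3 (hLNN : LnnStmt) (hGVB : GvbStmt) (hGVN : GvnStmt) (hGVS : GvsStmt) (hGVK : GvkStmt)
    (hGAV : GavStmt) (hRGV : RgvStmt) (hWUA : WuaStmt) (_hOAA : OaaStmt) (hOAR : OarStmt)
    (hISO : IsoStmt) (hFV1 : Fv1Stmt) (hFV4 : Fv4Stmt) : Nv3Stmt := by
  intro β hA hO1 hO3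
  by_contra hcon
  rw [not_or] at hcon
  obtain ⟨hII, hb4⟩ := hcon
  have hth := hA.th
  have hi := hA.iso
  have hcl := hA.cl
  have hK := cen_of_cent hA.ce
  have h21 : L1 β 1 (v2 2 1) (v2 1 2) := hO1
  obtain ⟨-, F2, -⟩ := hFV1 β hcl
  -- a relation which changes the degree
  have hW : ∀ x x' : ℕ → ℕ, deg 3 x = 3 → L1 β 3 x x' → deg 3 x' ≠ 3 → L1 β 3 x (sg 0 3) := by
    intro x x' hd h hne
    have h1 := (hWUA (FC.ofFIC β) hO1 hK 3 x x' (by omega) (by omega) h).1 0 (by omega)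
    rw [hd] at h1
    exact h1
  -- relations which vanish in the block 0
  have hO2of : ∀ x z : ℕ → ℕ, x 0 + x 1 + x 2 = 3 → x 3 = 0 → 1 ≤ x 2 → 1 ≤ x 0 →
      z 0 + z 1 + z 2 + z 3 = 3 → z 0 = 0 → L1 β 3 x z → O2 (FC.ofFIC β) := by
    intro x z hx hx3 hx2 hx0 hz hz0 h
    have h1 := l1_push (bmap3 (a := 0) (b := 1) (c := 1) (d := 1) (k' := 1) (by omega)
      (by omega) (by omega) (by omega)) h
    rw [p0111, p0111] at h1
    have e2 : z 1 + z 2 + z 3 = 3 := by omega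
    rw [hz0, e2, hx3] at h1
    have hcase : x 0 = 1 ∨ x 0 = 2 := by omega
    rcases hcase with hc | hc
    · have e3 : x 1 + x 2 + 0 = 2 := by omega
      rw [hc, e3] at h1
      exact h1
    · have e3 : x 1 + x 2 + 0 = 1 := by omega
      rw [hc, e3] at h1
      exact l1_trans (l1_symm h21) h1
  -- relations which leave the last block
  have hU : ∀ x z : ℕ → ℕ, x 0 + x 1 + x 2 = 3 → x 3 = 0 → 1 ≤ x 2 →
      (O2 (FC.ofFIC β) ∨ 1 ≤ x 0) → z 0 + z 1 + z 2 + z 3 = 3 → (z 3 ≠ 0 ∨ z 2 = 0) →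
      L1 β 3 x z → False := by
    intro x z hx hx3 hx2 ho hz hzc h
    by_cases hz3 : z 3 = 0
    · have hz2 : z 2 = 0 := by
        rcases hzc with hzc | hzc
        · exact absurd hz3 hzc
        · exact hzc
      have h1 := l1_push (bmap3 (a := 0) (b := 0) (c := 1) (d := 1) (k' := 1) (by omega)
        (by omega) (by omega) (by omega)) h
      rw [p0011, p0011] at h1
      have e : z 0 + z 1 = 3 := by omega
      have e' : z 2 + z 3 = 0 := by omega
      rw [e, e'] at h1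
      refine hO3 (o3_of_rel hO1 (by omega) (by omega) h1 ?_)
      rcases ho with ho | ho1
      · exact Or.inl ho
      · exact Or.inr (by omega)
    · have h1 := l1_push (bmap3 (a := 0) (b := 0) (c := 0) (d := 1) (k' := 1) (by omega)
        (by omega) (by omega) (by omega)) h
      rw [p0001, p0001, hx, hx3] at h1
      refine hO3 (o3_of_rel hO1 (by omega) (by omega) (l1_symm h1) ?_)
      by_cases hz3' : z 3 ≤ 2
      · exact Or.inr hz3'
      · left
        rcases ho with ho | ho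
        · exact ho
        · exact hO2of x z hx hx3 hx2 ho hz (by omega) h
  -- relations of the type `(1,1,1,0)`
  have hV : ∀ x z : ℕ → ℕ, (x 0 = 1 ∧ x 1 = 1 ∧ x 2 = 1 ∧ x 3 = 0) → deg 3 z = 3 →
      ¬ (z 0 = 1 ∧ z 1 = 1 ∧ z 2 = 1 ∧ z 3 = 0) → L1 β 3 x z → False := by
    intro x z hx hz hne h
    obtain ⟨x0, x1, x2, x3⟩ := hx
    have hspx : sp 3 x = {0, 1, 2} := by
      ext j
      rw [mem_sp]
      simp only [Finset.mem_insert, Finset.mem_singleton]
      constructor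
      · rintro ⟨h1, h2⟩
        by_contra hc
        have hj : j = 3 := by omega
        subst hj
        exact h2 x3
      · rintro (rfl | rfl | rfl) <;> constructor <;> omega
    have hsp : sp 3 x ≠ sp 3 z := by
      intro he
      apply hne
      rw [hspx] at he
      have m0 : (0 : ℕ) ∈ sp 3 z := by rw [← he]; simp
      have m1 : (1 : ℕ) ∈ sp 3 z := by rw [← he]; simp
      have m2 : (2 : ℕ) ∈ sp 3 z := by rw [← he]; simp
      rw [mem_sp] at m0 m1 m2
      rw [deg3] at hz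
      have := m0.2; have := m1.2; have := m2.2
      exact ⟨by omega, by omega, by omega, by omega⟩
    have hdx : deg 3 x = 3 := by rw [deg3]; omega
    have h1 := (hOAR (FC.ofFIC β) 3 x z (Or.inl hO1) (by omega) (by omega) h hsp).1
    have hcard : (sp 3 x).card = 3 := by rw [hspx]; rfl
    rw [hdx] at h1
    have s1 : sp 2 (v3 1 1 1) = {0, 1, 2} := by decide
    have s2 : sp 2 (v3 2 0 1) = {0, 2} := by decide
    apply hII
    refine h1 2 (v3 1 1 1) (v3 2 0 1) (by decide) (by decide) ?_ ?_ ?_ ?_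
    · rw [s1]
      refine le_trans ?_ (le_max_left _ _)
      rw [hcard]; decide
    · rw [s2]
      refine le_trans ?_ (le_max_left _ _)
      rw [hcard]; decide
    · rw [s1, s2]; decide
    · rw [s1, s2]; decide
  -- the exchange of the pushed types
  have hP : ∀ x y : ℕ → ℕ, x 0 + x 1 + x 2 = 3 → x 3 = 0 → 1 ≤ x 2 → Yv y →
      Bt β 3 x y 2 → Bt β 2 (v3 (x 0 + x 1) (x 2) 0) (v3 0 1 1) 1 := by
    intro x y hx hx3 hx2 hy hBt
    have hdy := yv_deg hy
    obtain ⟨g0, g1, g2, g3⟩ := hy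
    have hdx : deg 3 x = 3 := by rw [deg3]; omega
    have h4 := hFV4 β hcl 3 2 (fl [0, 0, 1, 2]) x y (v3 (x 0 + x 1) (x 2) 0) (v3 0 1 1) 2
      (bmap3 (by omega) (by omega) (by omega) (by omega)) (by omega) hx2 (by omega) (by omega)
      (by omega) (by
        intro l hl h2l hfl
        have : l = 3 := by omega
        subst this
        simp [fl] at hfl) (by
        intro j hj
        rw [p0012, hx3]) (by
        intro j hj
        rw [p0012, g0, g1, g2, g3]) hBt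
    exact h4
  -- the congruence `G1`
  have hG1 : β ≤ GV 3 2 Tv1 := by
    refine hGVB β hth (nc2_of_iso3 hi) hcl 3 2 Tv1 (by omega) tv1_ext tv1_mul ?_ ?_
    · intro a b a' b' hT ha hb
      refine ⟨?_, yv_iso hISO hth hi hT.2 hb⟩
      by_contra hne
      have hda : deg 3 a = 3 := by
        obtain ⟨⟨h0, h1, h2, h3⟩, -⟩ := hT
        rw [deg3]; omega
      by_cases hd : deg 3 a' = 3
      · exact hV a a' hT.1 hd hne ha
      · exact hV a (sg 0 3) hT.1 (by decide) (by simp [sg]) (hW a a' hda ha hd)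
    · intro a b hT hBt
      obtain ⟨⟨h0, h1, h2, h3⟩, hy⟩ := hT
      have h4 := hP a b (by omega) h3 (by omega) hy hBt
      rw [h0, h1, h2] at h4
      exact hb4 h4
  have hG2 : β ≤ GV 3 2 (Tv2 β) := by
    refine hGVB β hth (nc2_of_iso3 hi) hcl 3 2 (Tv2 β) (by omega) (tv2_ext β) (tv2_mul β) ?_ ?_
    · intro a b a' b' hT ha hb
      obtain ⟨hy, hs, ha3, ha2, ho⟩ := hT
      have hda : deg 3 a = 3 := by rw [deg3]; omega
      have hd : deg 3 a' = 3 := by
        by_contra hd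
        exact hU a (sg 0 3) hs ha3 ha2 ho (by simp [sg]) (Or.inr (by simp [sg]))
          (hW a a' hda ha hd)
      have hs' : a' 0 + a' 1 + a' 2 + a' 3 = 3 := by rw [← deg3]; exact hd
      have hc : ¬ (a' 3 ≠ 0 ∨ a' 2 = 0) := fun hc => hU a a' hs ha3 ha2 ho hs' hc ha
      rw [not_or, not_not] at hc
      obtain ⟨hc3, hc2⟩ := hc
      refine ⟨yv_iso hISO hth hi hy hb, by omega, hc3, by omega, ?_⟩
      rcases ho with ho | ho1
      · exact Or.inl ho
      by_cases hc0 : 1 ≤ a' 0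
      · exact Or.inr hc0
      · exact Or.inl (hO2of a a' hs ha3 ha2 ho1 hs' (by omega) ha)
    · intro a b hT hBt
      obtain ⟨hy, hs, ha3, ha2, ho⟩ := hT
      have h4 := hP a b hs ha3 ha2 hy hBt
      have q1 : L1 β 2 (v3 2 1 0) (v3 1 2 0) := by
        have h1 := l1_push (bmap1 (a := 0) (b := 1) (k' := 2) (by omega) (by omega)) h21
        rw [p01_3, p01_3] at h1
        exact h1
      have hcase : a 2 = 1 ∨ a 2 = 2 ∨ a 2 = 3 := by omega
      rcases hcase with hc | hc | hc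
      · have e : a 0 + a 1 = 2 := by omega
        rw [e, hc] at h4
        exact hb4 h4
      · have e : a 0 + a 1 = 1 := by omega
        rw [e, hc] at h4
        exact hb4 (F2 2 _ _ _ _ q1 h4)
      · have e : a 0 + a 1 = 0 := by omega
        rw [e, hc] at h4
        have ho2 : O2 (FC.ofFIC β) := by
          rcases ho with ho | ho
          · exact ho
          · omega
        have h12 : L1 β 1 (v2 1 2) (v2 0 3) := ho2
        have q2 : L1 β 2 (v3 1 2 0) (v3 0 3 0) := by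
          have h1 := l1_push (bmap1 (a := 0) (b := 1) (k' := 2) (by omega) (by omega)) h12
          rw [p01_3, p01_3] at h1
          exact h1
        exact hb4 (F2 2 _ _ _ _ (l1_trans q1 q2) h4)
  -- the exchange in `G1`
  have hBt1 : Bt (GV 3 2 Tv1) 3 (v4 2 0 1 0) (v4 0 0 1 1) 2 := by
    refine hGVS 3 2 Tv1 tv1_ext tv1_deg 3 _ _ (by decide) (by decide) ?_ 2
    intro f hf hT
    obtain ⟨⟨h0, h1, h2, h3⟩, -⟩ := hT
    exact no_psh_v f (hf.le 0 (by omega)) h0 h1 h2 h3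
  -- the type change in `G2`
  have hL2 : L1 (GV 3 2 (Tv2 β)) 3 (v4 2 0 1 0) (v4 1 1 1 0) := by
    refine hGVK 3 2 3 (Tv2 β) (by omega) (tv2_ext β) (tv2_deg β) (tv2_mul β) ?_ 3 2 _ _
      (by decide) (by decide) (by decide) (by unfold Occ; decide) (by unfold Occ; decide) ?_
    · intro a b hT
      obtain ⟨hy, hs, ha3, ha2, ho⟩ := hT
      rw [← hs]
      simp [Finset.sum_range_succ]
    intro f hf b
    have key := key_v f (hf.mono 0 1 (by omega) (by omega)) (hf.mono 1 2 (by omega) (by omega))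
      (hf.le 2 (by omega))
    obtain ⟨k1, k2, k3, k4⟩ := key
    unfold Tv2
    constructor
    · rintro ⟨h1, h2, h3, h4, h5⟩
      refine ⟨h1, k1.mp h2, k2.mp h3, (k3 h3).mp h4, ?_⟩
      rcases h5 with h5 | h5
      · exact Or.inl h5
      · exact Or.inr ((k4 h3 h4).mp h5)
    · rintro ⟨h1, h2, h3, h4, h5⟩
      have h3' := k2.mpr h3
      have h4' := (k3 h3').mpr h4
      refine ⟨h1, k1.mpr h2, h3', h4', ?_⟩
      rcases h5 with h5 | h5
      · exact Or.inl h5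
      · exact Or.inr ((k4 h3' h4').mpr h5)
  have hfin := hLNN β hth (nc2_of_iso3 hi) (hGAV β hcl.1) (hRGV β hcl) hA.md _ _ hG1 hG2 3
    (v4 2 0 1 0) (v4 1 1 1 0) (v4 0 0 1 1) 2 (by decide) (by decide) (by decide) (by omega)
    hBt1 hL2
  rcases hfin with h | h
  · exact hGVN 3 2 Tv1 (by omega) tv1_ext tv1_mul _ _
      ⟨⟨rfl, rfl, rfl, rfl⟩, rfl, rfl, rfl, rfl⟩ h
  · exact hGVN 3 2 (Tv2 β) (by omega) (tv2_ext β) (tv2_mul β) _ _
      ⟨⟨rfl, rfl, rfl, rfl⟩, rfl, rfl, by decide, Or.inr (by decide)⟩ h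

end Pool.Agent.MVO.H55
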