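import Pool.Agent.MVO.StmtsV

/-! Row PWV of squad MVO: exchange of powers in class Va. -/

set_option autoImplicit false

namespace Pool.Agent.MVO.H55

open Pool.Agent.Helper14_MV Pool.Agent.Helper2_MV

theorem rr_cast {β : FIC} {l l' m m' : List ℕ} (h : RR β l l') (e : l = m) (e' : l' = m') :
    RR β m m' := by
  rw [← e, ← e']
  exact h

theorem rr_trans {β : FIC} {l l' l'' : List ℕ} (h : RR β l l') (h' : RR β l' l'') :
    RR β l l'' := β.trans h h'

/-- one letter `y` over a power of `x` -/
theorem pass_one {β : FIC} (p q : List ℕ) (x y : ℕ) (w : List ℕ)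
    (h : ∀ s1 s2 : List ℕ, (p ++ s1 ++ x :: y :: (s2 ++ q)).Perm w →
      RR β (p ++ s1 ++ x :: y :: (s2 ++ q)) (p ++ s1 ++ y :: x :: (s2 ++ q))) (c : ℕ) :
    ∀ s1 s2 : List ℕ, (p ++ s1 ++ List.replicate c x ++ y :: (s2 ++ q)).Perm w →
      RR β (p ++ s1 ++ List.replicate c x ++ y :: (s2 ++ q))
        (p ++ s1 ++ y :: (List.replicate c x ++ s2 ++ q)) := by
  induction c with
  | zero =>
    intro s1 s2 _
    have e : p ++ s1 ++ List.replicate 0 x ++ y :: (s2 ++ q) =
        p ++ s1 ++ y :: (List.replicate 0 x ++ s2 ++ q) := by simp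
    rw [e]
    exact RR.refl _
  | succ c ih =>
    intro s1 s2 hperm
    have e1 : p ++ s1 ++ List.replicate (c + 1) x ++ y :: (s2 ++ q) =
        p ++ (s1 ++ List.replicate c x) ++ x :: y :: (s2 ++ q) := by
      rw [List.replicate_succ']
      simp [List.append_assoc]
    rw [e1] at hperm ⊢
    have h1 := h (s1 ++ List.replicate c x) s2 hperm
    have hp2 : (p ++ s1 ++ List.replicate c x ++ y :: ((x :: s2) ++ q)).Perm w := by
      refine List.Perm.trans ?_ hperm
      have e2 : p ++ s1 ++ List.replicate c x ++ y :: ((x :: s2) ++ q) =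
          p ++ (s1 ++ List.replicate c x) ++ y :: x :: (s2 ++ q) := by simp [List.append_assoc]
      rw [e2]
      exact List.Perm.append_left _ (List.Perm.swap x y _)
    have h2 := ih s1 (x :: s2) hp2
    refine rr_trans h1 (rr_cast h2 (by simp [List.append_assoc]) ?_)
    rw [List.replicate_succ']
    simp [List.append_assoc]

/-- exchange of powers from single exchanges -/
theorem pow_swap {β : FIC} (p q : List ℕ) (x y : ℕ) (w : List ℕ)
    (h : ∀ s1 s2 : List ℕ, (p ++ s1 ++ x :: y :: (s2 ++ q)).Perm w →
      RR β (p ++ s1 ++ x :: y :: (s2 ++ q)) (p ++ s1 ++ y :: x :: (s2 ++ q))) (a b : ℕ) :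
    ∀ s1 : List ℕ, (p ++ s1 ++ List.replicate a x ++ (List.replicate b y ++ q)).Perm w →
      RR β (p ++ s1 ++ List.replicate a x ++ (List.replicate b y ++ q))
        (p ++ s1 ++ List.replicate b y ++ (List.replicate a x ++ q)) := by
  induction b with
  | zero =>
    intro s1 _
    have e : p ++ s1 ++ List.replicate a x ++ (List.replicate 0 y ++ q) =
        p ++ s1 ++ List.replicate 0 y ++ (List.replicate a x ++ q) := by simp
    rw [e]
    exact RR.refl _
  | succ b ih =>
    intro s1 hperm
    have e1 : p ++ s1 ++ List.replicate a x ++ (List.replicate (b + 1) y ++ q) =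
        p ++ s1 ++ List.replicate a x ++ y :: (List.replicate b y ++ q) := by
      rw [List.replicate_succ]
      simp
    rw [e1] at hperm ⊢
    have h1 := pass_one p q x y w h a s1 (List.replicate b y) hperm
    have hp2 : (p ++ (s1 ++ [y]) ++ List.replicate a x ++ (List.replicate b y ++ q)).Perm w := by
      refine List.Perm.trans ?_ hperm
      have e2 : p ++ (s1 ++ [y]) ++ List.replicate a x ++ (List.replicate b y ++ q) =
          (p ++ s1) ++ (y :: (List.replicate a x ++ (List.replicate b y ++ q))) := by
        simp [List.append_assoc]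
      have e3 : p ++ s1 ++ List.replicate a x ++ y :: (List.replicate b y ++ q) =
          (p ++ s1) ++ (List.replicate a x ++ y :: (List.replicate b y ++ q)) := by
        simp [List.append_assoc]
      rw [e2, e3]
      exact List.Perm.append_left _ List.perm_middle.symm
    have h2 := ih (s1 ++ [y]) hp2
    refine rr_trans h1 (rr_cast h2 (by simp [List.append_assoc]) ?_)
    rw [List.replicate_succ]
    simp [List.append_assoc]

theorem cob_right {w w' l s : List ℕ} {x y : ℕ} (hw : ∀ z, w.count z = w'.count z)
    (h : Cob w l x y) : Cob w' (l ++ s) x y := by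
  obtain ⟨l1, c, l2, rfl, hc⟩ := h
  refine ⟨l1, c, l2 ++ s, by simp [List.append_assoc], fun z hz => ?_⟩
  rw [← hw]
  exact hc z hz

theorem cob_left {w w' l s : List ℕ} {x y : ℕ} (hw : ∀ z, w.count z = w'.count z)
    (h : Cob w l x y) : Cob w' (s ++ l) x y := by
  obtain ⟨l1, c, l2, rfl, hc⟩ := h
  refine ⟨s ++ l1, c, l2, by simp [List.append_assoc], fun z hz => ?_⟩
  rw [← hw]
  exact hc z hz

/-- the letters `y` but one pass to the left -/
theorem stepA {β : FIC} (mvv : MvvStmt) (hF : MVD.F1L β) (p q : List ℕ) (x y a : ℕ)
    (ha : 2 ≤ a) (n : ℕ) : ∀ j : ℕ,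
    RR β (p ++ (List.replicate j y ++ (List.replicate a x ++ (List.replicate (n + 1) y ++ q))))
      (p ++ (List.replicate (j + n) y ++ (List.replicate a x ++ (y :: q)))) := by
  induction n with
  | zero =>
    intro j
    simp only [Nat.zero_add, Nat.add_zero, List.replicate_one, List.singleton_append]
    exact RR.refl _
  | succ n ih =>
    intro j
    have h1 := mvv β hF (List.replicate a x) (p ++ List.replicate j y)
      (List.replicate n y ++ q) y (by
        intro c hc
        rw [List.eq_of_mem_replicate hc]
        have h3 : a ≤ (List.replicate a x ++ y :: (List.replicate n y ++ q)).count x := by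
          rw [List.count_append, List.count_replicate_self]
          exact Nat.le_add_right _ _
        have h4 : (List.replicate a x ++ y :: (List.replicate n y ++ q)).count x ≤
            (p ++ List.replicate j y ++
              y :: (List.replicate a x ++ y :: (List.replicate n y ++ q))).count x := by
          exact List.Sublist.count_le x ((List.sublist_cons_self y _).trans
            (List.sublist_append_right _ _))
        omega)
    have h2 := ih (j + 1)
    refine rr_trans (rr_cast h1.symm ?_ ?_) (rr_cast h2 rfl ?_)
    · rw [List.replicate_succ (n := n + 1), List.replicate_succ (n := n)]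
      simp [List.append_assoc]
    · rw [List.replicate_succ' (n := j), List.replicate_succ (n := n)]
      simp [List.append_assoc]
    · have e : j + 1 + n = j + (n + 1) := by omega
      rw [e]

/-- `y` passes to the left over a power of `x` which is followed by `x` -/
theorem stepC {β : FIC} (mvv : MvvStmt) (hF : MVD.F1L β) (p q : List ℕ) (x y : ℕ)
    (hy : 1 ≤ p.count y) (n : ℕ) : ∀ j : ℕ,
    RR β (p ++ (List.replicate n x ++ (y :: (List.replicate (j + 1) x ++ q))))
      (p ++ (y :: (List.replicate (n + j + 1) x ++ q))) := by
  induction n with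
  | zero =>
    intro j
    simp only [List.replicate_zero, List.nil_append, Nat.zero_add]
    exact RR.refl _
  | succ n ih =>
    intro j
    have h1 := mvv β hF [y] (p ++ List.replicate n x) (List.replicate j x ++ q) x (by
        intro c hc
        rw [List.mem_singleton.1 hc]
        have h3 : (p ++ List.replicate n x ++
            x :: ([y] ++ x :: (List.replicate j x ++ q))).count y =
            p.count y + (List.replicate n x).count y +
              (x :: ([y] ++ x :: (List.replicate j x ++ q))).count y := by
          rw [List.count_append, List.count_append]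
        have h4 : 1 ≤ (x :: ([y] ++ x :: (List.replicate j x ++ q))).count y :=
          List.count_pos_iff.2 (by simp)
        omega)
    have h2 := ih (j + 1)
    refine rr_trans (rr_cast h1 ?_ ?_) (rr_cast h2 rfl ?_)
    · rw [List.replicate_succ' (n := n), List.replicate_succ (n := j)]
      simp [List.append_assoc]
    · rw [List.replicate_succ (n := j + 1), List.replicate_succ (n := j)]
      simp [List.append_assoc]
    · have e : n + (j + 1) + 1 = n + 1 + j + 1 := by omega
      rw [e]

theorem pwv (mvv : MvvStmt) (sgv : SgvStmt) : PwvStmt := by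
  intro β hV p q x y a b w hxy hw h
  obtain ⟨hF, hFF, hZZ⟩ := hV
  rcases h with ⟨ha, hb⟩ | h
  · obtain ⟨a', rfl⟩ : ∃ a', a = a' + 2 := ⟨a - 2, by omega⟩
    obtain ⟨b', rfl⟩ : ∃ b', b = b' + 2 := ⟨b - 2, by omega⟩
    -- the letters `y` but one
    have h1 := stepA mvv hF p q x y (a' + 2) ha (b' + 1) 0
    -- the single exchange
    have h2 := sgv β hFF hZZ (p ++ List.replicate (b' + 1) y ++ List.replicate (a' + 1) x) q x y
      (Or.inr (Or.inr (Or.inr ⟨p ++ List.replicate b' y, [], List.replicate a' x, by
        rw [List.replicate_succ' (n := b'), List.replicate_succ (n := a')]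
        simp [List.append_assoc], by simp⟩)))
    -- the letters `x`
    have h3 := stepC mvv hF (p ++ List.replicate (b' + 1) y) q x y (by
        rw [List.count_append, List.count_replicate_self]
        omega) (a' + 1) 0
    rw [hw]
    refine rr_trans (rr_cast h1 ?_ ?_) (rr_trans h2 (rr_cast h3 ?_ ?_))
    · simp [List.append_assoc]
    · rw [List.replicate_succ' (n := a' + 1), Nat.zero_add]
      simp [List.append_assoc]
    · simp [List.append_assoc]
    · have e : a' + 1 + 0 + 1 = a' + 2 := by omega
      rw [e, List.replicate_succ' (n := b' + 1)]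
      simp [List.append_assoc]
  · have hperm : (p ++ [] ++ List.replicate a x ++ (List.replicate b y ++ q)).Perm w := by
      rw [hw]
      simp [List.append_assoc]
    have key : ∀ s1 s2 : List ℕ, (p ++ s1 ++ x :: y :: (s2 ++ q)).Perm w →
        RR β (p ++ s1 ++ x :: y :: (s2 ++ q)) (p ++ s1 ++ y :: x :: (s2 ++ q)) := by
      intro s1 s2 hp
      have hcnt : ∀ z, w.count z = (p ++ s1 ++ x :: y :: (s2 ++ q)).count z :=
        fun z => (hp.count_eq z).symm
      apply sgv β hFF hZZ (p ++ s1) (s2 ++ q) x y
      rcases h with h | h | h | h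
      · exact Or.inr (Or.inr (Or.inl (cob_right hcnt h)))
      · exact Or.inr (Or.inr (Or.inr (cob_right hcnt h)))
      · exact Or.inl (cob_left hcnt h)
      · exact Or.inr (Or.inl (cob_left hcnt h))
    have h1 := pow_swap p q x y w key a b [] hperm
    refine rr_cast h1 ?_ ?_
    · rw [hw]
      simp [List.append_assoc]
    · simp [List.append_assoc]

end Pool.Agent.MVO.H55
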